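import Pool.Agent.Lib.MP_b9430d_co.Main

/-!
Sets that agree almost everywhere with an open set.
-/

open Complex Set Filter Topology Metric MeasureTheory

namespace Pool.MPb9430d

/-- There is no open plane set meeting a dense set of congruent copies of the lattice in exactly
`n ≥ 1` points. -/
theorem not_dense_of_open {U : Set ℂ} (hU : IsOpen U) {n : ℕ} (hn : 1 ≤ n) :
    ¬ Dense {g : ℝ × ℂ | (hits U g).encard = n} := by
  intro hd
  apply not_generic hU.baireMeasurableSet hn
  have hWopen : ∀ F : Set (ℤ × ℤ), F.Finite → IsOpen (⋂ p ∈ F, pos p ⁻¹' U) := fun F hF =>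
    hF.isOpen_biInter (fun p _ => hU.preimage (pos_continuous p))
  have hle : ∀ g, (hits U g).encard ≤ n := by
    intro g
    by_contra hcon
    push Not at hcon
    obtain ⟨F, hF, hFc⟩ := Set.exists_subset_encard_eq (Order.add_one_le_of_lt hcon)
    have hFfin : F.Finite := by
      rw [← Set.encard_lt_top_iff, hFc]
      exact (ENat.natCast_lt_top (n + 1))
    obtain ⟨g', hg'n, hg'⟩ := hd.exists_mem_open (hWopen F hFfin) ⟨g, by
      simp only [mem_iInter]; exact fun p hp => hF hp⟩
    have hsub : F ⊆ hits U g' := by
      intro p hp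
      simp only [mem_iInter] at hg'
      exact hg' p hp
    have h1 := Set.encard_le_encard hsub
    have h3 : (hits U g').encard = n := hg'n
    rw [hFc, h3] at h1
    have h2 : n + 1 ≤ n := by exact_mod_cast h1
    omega
  have hopen : IsOpen {g : ℝ × ℂ | (hits U g).encard = n} := by
    rw [isOpen_iff_mem_nhds]
    intro g hg
    have hg' : (hits U g).encard = n := hg
    have hfin : (hits U g).Finite := by
      rw [← Set.encard_lt_top_iff, hg']
      exact ENat.natCast_lt_top n
    have hmem : g ∈ ⋂ p ∈ hits U g, pos p ⁻¹' U := by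
      simp only [mem_iInter]; exact fun p hp => hp
    filter_upwards [(hWopen _ hfin).mem_nhds hmem] with g' hg''
    have hsub : hits U g ⊆ hits U g' := by
      intro p hp
      simp only [mem_iInter] at hg''
      exact hg'' p hp
    change (hits U g').encard = n
    refine le_antisymm (hle g') ?_
    rw [← hg']
    exact Set.encard_le_encard hsub
  exact residual_of_dense_open hopen hd

theorem pos_quasi (p : ℤ × ℤ) :
    Measure.QuasiMeasurePreserving (pos p) (volume : Measure (ℝ × ℂ)) (volume : Measure ℂ) := by
  have h1 : MeasurePreserving (fun q : ℝ × ℂ => (q.1, q.2 + exp (q.1 * I) * lat p))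
      ((volume : Measure ℝ).prod (volume : Measure ℂ))
      ((volume : Measure ℝ).prod (volume : Measure ℂ)) := by
    refine MeasurePreserving.skew_product (f := id)
      (g := fun (θ : ℝ) (τ : ℂ) => τ + exp (θ * I) * lat p)
      (MeasurePreserving.id _) ?_ ?_
    · exact Continuous.measurable (by fun_prop)
    · exact Eventually.of_forall (fun θ => map_add_right_eq_self _ _)
  exact (Measure.quasiMeasurePreserving_snd).comp h1.quasiMeasurePreserving

/-- Almost every motion does not see a null set. -/
theorem ae_hits {E U : Set ℂ} (hEU : E =ᵐ[volume] U) :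
    ∀ᵐ g : ℝ × ℂ, hits E g = hits U g := by
  have h : ∀ᵐ g : ℝ × ℂ, ∀ p : ℤ × ℤ, (pos p g ∈ E ↔ pos p g ∈ U) := by
    rw [ae_all_iff]
    intro p
    have := (pos_quasi p).ae hEU
    filter_upwards [this] with g hg
    exact Iff.of_eq hg
  filter_upwards [h] with g hg
  ext p
  exact hg p

/-- No set that agrees almost everywhere with an open set is an `n`-Steinhaus set. -/
theorem not_ae_open {E U : Set ℂ} (hU : IsOpen U) (hEU : E =ᵐ[volume] U) {n : ℕ} (hn : 1 ≤ n) :
    ¬ ∀ᵐ g : ℝ × ℂ, (hits E g).encard = n := by
  intro h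
  apply not_dense_of_open hU hn
  have h1 : ∀ᵐ g : ℝ × ℂ, (hits U g).encard = n := by
    filter_upwards [h, ae_hits hEU] with g h1 h2
    rw [← h2]; exact h1
  exact Measure.dense_of_ae h1

end Pool.MPb9430d
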