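import Pool.Agent.Lib.MP_b9430d_co.Lattice

/-!
Rotated and translated lattices meeting a bounded open set.
-/

open Complex Set Filter Topology Metric

namespace Pool.MPb9430d

/-- The position of the lattice point `p` after rotation by `g.1` and translation by `g.2`. -/
noncomputable def pos (p : ℤ × ℤ) (g : ℝ × ℂ) : ℂ := g.2 + exp (g.1 * I) * lat p

theorem pos_continuous (p : ℤ × ℤ) : Continuous (pos p) := by
  unfold pos; fun_prop

theorem norm_exp_mul (θ : ℝ) (z : ℂ) : ‖exp (θ * I) * z‖ = ‖z‖ := by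
  rw [norm_mul, Complex.norm_exp_ofReal_mul_I, one_mul]

theorem pos_openMap (p : ℤ × ℤ) : IsOpenMap (pos p) := by
  refine IsOpenMap.of_sections (fun x => ⟨fun y => (x.1, y - exp (x.1 * I) * lat p), ?_, ?_, ?_⟩)
  · exact Continuous.continuousAt (by fun_prop)
  · apply Prod.ext
    · rfl
    · simp [pos]
  · intro y
    simp [pos]

/-- The lattice indices lying in `U`. -/
def hits (U : Set ℂ) (g : ℝ × ℂ) : Set (ℤ × ℤ) := {p | pos p g ∈ U}

/-- Only finitely many indices matter near `g₀` for a bounded set. -/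
theorem finite_hits {U : Set ℂ} (hb : Bornology.IsBounded U) (g : ℝ × ℂ) : (hits U g).Finite := by
  obtain ⟨R, hR⟩ := hb.subset_closedBall 0
  refine (finite_lat (R + ‖g.2‖)).subset ?_
  intro p hp
  have h1 : ‖pos p g‖ ≤ R := by
    have := hR hp
    rwa [mem_closedBall_zero_iff] at this
  have h2 : exp (g.1 * I) * lat p = pos p g - g.2 := by simp [pos]
  change ‖lat p‖ ≤ R + ‖g.2‖
  rw [← norm_exp_mul g.1, h2]
  exact (norm_sub_le _ _).trans (by linarith)

/-- Openness in the bounded situation. -/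
theorem eventually_types {U : Set ℂ} (hU : IsOpen U) (hb : Bornology.IsBounded U) (g₀ : ℝ × ℂ) :
    ∀ᶠ g in 𝓝 g₀, (∀ p, pos p g₀ ∈ U → pos p g ∈ U) ∧
      (∀ p, pos p g₀ ∉ closure U → pos p g ∉ closure U) := by
  obtain ⟨R, hR⟩ := hb.closure.subset_closedBall 0
  have hfin := finite_lat (R + ‖g₀.2‖ + 1)
  have h1 : ∀ᶠ g in 𝓝 g₀, ∀ p ∈ {p : ℤ × ℤ | ‖lat p‖ ≤ R + ‖g₀.2‖ + 1},
      (pos p g₀ ∈ U → pos p g ∈ U) ∧ (pos p g₀ ∉ closure U → pos p g ∉ closure U) := by
    rw [hfin.eventually_all]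
    intro p _
    refine Eventually.and ?_ ?_
    · by_cases h : pos p g₀ ∈ U
      · filter_upwards [(pos_continuous p).continuousAt.eventually_mem (hU.mem_nhds h)] with g hg _
        exact hg
      · exact Eventually.of_forall (fun _ h' => absurd h' h)
    · by_cases h : pos p g₀ ∉ closure U
      · filter_upwards [(pos_continuous p).continuousAt.eventually_mem
          (isClosed_closure.isOpen_compl.mem_nhds h)] with g hg _
        exact hg
      · exact Eventually.of_forall (fun _ h' => absurd h' h)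
  have h2 : ∀ᶠ g : ℝ × ℂ in 𝓝 g₀, ‖g.2‖ < ‖g₀.2‖ + 1 := by
    have hc : Continuous (fun g : ℝ × ℂ => ‖g.2‖) := by fun_prop
    exact hc.continuousAt.eventually_lt continuousAt_const (by simp)
  filter_upwards [h1, h2] with g hg1 hg2
  have hout : ∀ p : ℤ × ℤ, ¬ ‖lat p‖ ≤ R + ‖g₀.2‖ + 1 → ∀ g : ℝ × ℂ, ‖g.2‖ < ‖g₀.2‖ + 1 →
      pos p g ∉ closure U := by
    intro p hp g hg h
    have h3 := hR h
    rw [mem_closedBall_zero_iff] at h3
    have h4 : exp (g.1 * I) * lat p = pos p g - g.2 := by simp [pos]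
    have h5 : ‖lat p‖ ≤ ‖pos p g‖ + ‖g.2‖ := by
      rw [← norm_exp_mul g.1, h4]; exact norm_sub_le _ _
    linarith
  constructor
  · intro p hp
    by_cases h : ‖lat p‖ ≤ R + ‖g₀.2‖ + 1
    · exact (hg1 p h).1 hp
    · exact absurd (subset_closure hp) (hout p h g₀ (by linarith))
  · intro p hp
    by_cases h : ‖lat p‖ ≤ R + ‖g₀.2‖ + 1
    · exact (hg1 p h).2 hp
    · exact hout p h g hg2

/-- The curved sector `{exp (iα) (1 - exp (iβ))}` contains an open set. -/
theorem sector_open {ε : ℝ} (hε : 0 < ε) :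
    ∃ O : Set ℂ, IsOpen O ∧ O.Nonempty ∧ ∀ w ∈ O, ∃ α β : ℝ, |α| < ε ∧ |β| < ε ∧
      exp (α * I) * (1 - exp (β * I)) = w := by
  -- radius
  have harc : ∀ᶠ r : ℝ in 𝓝 0, 2 * Real.arcsin (r / 2) < ε ∧ r < 1 := by
    have hc : Continuous (fun r : ℝ => 2 * Real.arcsin (r / 2)) := by fun_prop
    refine Eventually.and ?_ ?_
    · exact hc.continuousAt.eventually_lt continuousAt_const (by simp [hε])
    · exact continuousAt_id.eventually_lt continuousAt_const (by simp)
  obtain ⟨ρ, hρ0, hρ⟩ := Metric.eventually_nhds_iff.mp harc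
  let O : Set ℂ := {w | I * w ∈ slitPlane ∧ |arg (I * w)| < ε / 2 ∧ ‖w‖ < ρ ∧ 0 < ‖w‖}
  refine ⟨O, ?_, ?_, ?_⟩
  · rw [isOpen_iff_mem_nhds]
    rintro w ⟨h1, h2, h3, h4⟩
    have hcI : Continuous (fun w : ℂ => I * w) := by fun_prop
    have e1 : ∀ᶠ w' in 𝓝 w, I * w' ∈ slitPlane :=
      hcI.continuousAt.eventually_mem (isOpen_slitPlane.mem_nhds h1)
    have e2 : ∀ᶠ w' in 𝓝 w, |arg (I * w')| < ε / 2 := by
      have hca : ContinuousAt (fun w' : ℂ => |arg (I * w')|) w := by
        have := (Complex.continuousAt_arg h1).comp (f := fun w' : ℂ => I * w') hcI.continuousAt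
        exact this.abs
      exact hca.eventually_lt continuousAt_const h2
    have e3 : ∀ᶠ w' in 𝓝 w, ‖w'‖ < ρ :=
      continuous_norm.continuousAt.eventually_lt continuousAt_const h3
    have e4 : ∀ᶠ w' in 𝓝 w, 0 < ‖w'‖ :=
      continuousAt_const.eventually_lt continuous_norm.continuousAt h4
    filter_upwards [e1, e2, e3, e4] with w' a b c d
    exact ⟨a, b, c, d⟩
  · refine ⟨((ρ / 2 : ℝ) : ℂ) * (-I), ?_⟩
    have hI : I * (((ρ / 2 : ℝ) : ℂ) * (-I)) = ((ρ / 2 : ℝ) : ℂ) := by
      have : I * (((ρ / 2 : ℝ) : ℂ) * (-I)) = -((ρ / 2 : ℝ) : ℂ) * (I * I) := by ring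
      rw [this, I_mul_I]; ring
    have hnorm : ‖((ρ / 2 : ℝ) : ℂ) * (-I)‖ = ρ / 2 := by
      rw [norm_mul, norm_neg, norm_I, mul_one, Complex.norm_real, Real.norm_eq_abs,
        abs_of_pos (by positivity)]
    refine ⟨?_, ?_, ?_, ?_⟩
    · rw [hI]; exact Complex.ofReal_mem_slitPlane.mpr (by positivity)
    · rw [hI, Complex.arg_ofReal_of_nonneg (by positivity), abs_zero]; positivity
    · rw [hnorm]; linarith
    · rw [hnorm]; positivity
  · rintro w ⟨-, h2, h3, h4⟩
    have hρw := @hρ ‖w‖ (by rw [Real.dist_eq, sub_zero, abs_of_pos h4]; exact h3)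
    set β := 2 * Real.arcsin (‖w‖ / 2) with hβ
    have hβ0 : 0 ≤ β := by
      have := Real.arcsin_nonneg.mpr (show (0 : ℝ) ≤ ‖w‖ / 2 by positivity)
      linarith
    have hsin : Real.sin (β / 2) = ‖w‖ / 2 := by
      have : β / 2 = Real.arcsin (‖w‖ / 2) := by rw [hβ]; ring
      rw [this]
      exact Real.sin_arcsin (by linarith) (by linarith [hρw.2])
    refine ⟨arg (I * w) - β / 2, β, ?_, ?_, ?_⟩
    · calc |arg (I * w) - β / 2| ≤ |arg (I * w)| + |β / 2| := abs_sub _ _
        _ < ε / 2 + ε / 2 := by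
          have : |β / 2| < ε / 2 := by rw [abs_of_nonneg (by linarith)]; linarith [hρw.1]
          linarith
        _ = ε := by ring
    · rw [abs_of_nonneg hβ0]; exact hρw.1
    · have h5 : exp (((arg (I * w) - β / 2 : ℝ) : ℂ) * I) * (1 - exp (β * I)) =
          exp (arg (I * w) * I) * (exp (-(β / 2 : ℝ) * I) - exp ((β / 2 : ℝ) * I)) := by
        rw [mul_sub, mul_sub, ← Complex.exp_add, ← Complex.exp_add, mul_one, ← Complex.exp_add]
        congr 2
        · push_cast; ring
        · push_cast; ring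
      have h6 : exp (-((β / 2 : ℝ) : ℂ) * I) - exp (((β / 2 : ℝ) : ℂ) * I) =
          -(‖w‖ : ℂ) * I := by
        have h7 : (Real.sin (β / 2) : ℂ) =
            (exp (-((β / 2 : ℝ) : ℂ) * I) - exp (((β / 2 : ℝ) : ℂ) * I)) * I / 2 := by
          rw [Complex.ofReal_sin]; rfl
        rw [hsin] at h7
        have h8 : (exp (-((β / 2 : ℝ) : ℂ) * I) - exp (((β / 2 : ℝ) : ℂ) * I)) * I =
            (‖w‖ : ℂ) := by
          have := h7
          push_cast at this ⊢
          linear_combination -2 * this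
        calc exp (-((β / 2 : ℝ) : ℂ) * I) - exp (((β / 2 : ℝ) : ℂ) * I)
            = -((exp (-((β / 2 : ℝ) : ℂ) * I) - exp (((β / 2 : ℝ) : ℂ) * I)) * I) * I := by
              have : -((exp (-((β / 2 : ℝ) : ℂ) * I) - exp (((β / 2 : ℝ) : ℂ) * I)) * I) * I =
                -(exp (-((β / 2 : ℝ) : ℂ) * I) - exp (((β / 2 : ℝ) : ℂ) * I)) * (I * I) := by ring
              rw [this, I_mul_I]; ring
          _ = -(‖w‖ : ℂ) * I := by rw [h8]
      rw [h5, h6]
      have h9 : (‖w‖ : ℂ) * exp (arg (I * w) * I) = I * w := by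
        have := Complex.norm_mul_exp_arg_mul_I (I * w)
        rwa [norm_mul, norm_I, one_mul] at this
      have h10 : exp (arg (I * w) * I) * (-(‖w‖ : ℂ) * I) =
          -((‖w‖ : ℂ) * exp (arg (I * w) * I)) * I := by ring
      rw [h10, h9]
      have : -(I * w) * I = -w * (I * I) := by ring
      rw [this, I_mul_I]; ring

/-- The bounded case. -/
theorem no_bounded {U : Set ℂ} (hU : IsOpen U) (hreg : interior (closure U) = U)
    (hb : Bornology.IsBounded U) (hne : U.Nonempty) {n : ℕ}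
    (hgen : ∀ᶠ g in residual (ℝ × ℂ), (hits U g).encard = n) : False := by
  -- every nonempty open set of motions contains a generic one
  have hdense : ∀ W : Set (ℝ × ℂ), IsOpen W → W.Nonempty →
      ∃ g ∈ W, (hits U g).encard = n := by
    intro W hW hWne
    have hd : Dense {g : ℝ × ℂ | (hits U g).encard = n} := dense_of_mem_residual hgen
    obtain ⟨g, hg1, hg2⟩ := hd.exists_mem_open hW hWne
    exact ⟨g, hg2, hg1⟩
  -- the frontier
  have hfrb : Bornology.IsBounded (frontier U) := hb.closure.subset frontier_subset_closure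
  have hfrne : (frontier U).Nonempty := by
    rw [nonempty_iff_ne_empty]
    intro h
    rw [frontier_eq_empty_iff] at h
    rcases h with h | h
    · exact hne.ne_empty h
    · rw [h] at hb
      exact (NormedSpace.noncompactSpace ℝ ℂ).noncompact_univ
        (Metric.isCompact_of_isClosed_isBounded isClosed_univ hb)
  obtain ⟨x₀, hx₀⟩ := hfrne
  -- minimal number of frontier points
  have hex : ∃ k : ℕ, ∃ g, (hits (frontier U) g).Nonempty ∧ (hits (frontier U) g).ncard = k :=
    ⟨_, (0, x₀), ⟨(0, 0), by simp [hits, pos, lat, hx₀]⟩, rfl⟩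
  classical
  obtain ⟨g₀, hg₀ne, hg₀⟩ := Nat.find_spec hex
  have hmin : ∀ g, (hits (frontier U) g).Nonempty →
      (hits (frontier U) g₀).ncard ≤ (hits (frontier U) g).ncard := by
    intro g hg
    rw [hg₀]
    exact Nat.find_min' hex ⟨g, hg, rfl⟩
  have hev := eventually_types hU hb g₀
  have hfr : ∀ p g, pos p g ∈ frontier U ↔ pos p g ∉ U ∧ pos p g ∈ closure U := by
    intro p g
    rw [hU.frontier_eq, Set.mem_sdiff]
    tauto
  have hsub : ∀ᶠ g in 𝓝 g₀, hits (frontier U) g ⊆ hits (frontier U) g₀ := by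
    filter_upwards [hev] with g hg p hp
    have hp' := (hfr p g).mp hp
    refine (hfr p g₀).mpr ⟨fun h => hp'.1 (hg.1 p h), ?_⟩
    by_contra h
    exact hg.2 p h hp'.2
  have heq : ∀ᶠ g in 𝓝 g₀, (hits (frontier U) g).Nonempty →
      hits (frontier U) g = hits (frontier U) g₀ := by
    filter_upwards [hsub] with g hg hgne
    exact Set.eq_of_subset_of_ncard_le hg (hmin g hgne) (finite_hits hfrb g₀)
  obtain ⟨p₀, hp₀⟩ := hg₀ne
  by_cases hone : hits (frontier U) g₀ = {p₀}
  · -- a single frontier point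
    have hfin0 : (hits U g₀).Finite := finite_hits hb g₀
    have hp₀U : p₀ ∉ hits U g₀ := ((hfr p₀ g₀).mp hp₀).1
    have hx : pos p₀ g₀ ∈ frontier U := hp₀
    obtain ⟨W, hWsub, hWo, hgW⟩ := _root_.eventually_nhds_iff.mp hev
    have htr : Continuous (fun z : ℂ => ((g₀.1, g₀.2 + (z - pos p₀ g₀)) : ℝ × ℂ)) := by fun_prop
    have hposz : ∀ z : ℂ, pos p₀ (g₀.1, g₀.2 + (z - pos p₀ g₀)) = z := by
      intro z; simp only [pos]; ring
    have hWz : ∀ᶠ z in 𝓝 (pos p₀ g₀), ((g₀.1, g₀.2 + (z - pos p₀ g₀)) : ℝ × ℂ) ∈ W := by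
      refine htr.continuousAt.eventually_mem (hWo.mem_nhds ?_)
      rw [sub_self, add_zero]; exact hgW
    obtain ⟨Z, hZW, hZo, hxZ⟩ := _root_.eventually_nhds_iff.mp hWz
    -- a point of U near x
    have hU1 : (Z ∩ U).Nonempty := by
      have : pos p₀ g₀ ∈ closure U := frontier_subset_closure hx
      exact mem_closure_iff.mp this Z hZo hxZ
    have hU2 : (Z ∩ (closure U)ᶜ).Nonempty := by
      by_contra hcon
      rw [not_nonempty_iff_eq_empty] at hcon
      have hZs : Z ⊆ closure U := by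
        intro z hz
        by_contra hzc
        have : z ∈ Z ∩ (closure U)ᶜ := ⟨hz, hzc⟩
        rw [hcon] at this
        exact this
      have : pos p₀ g₀ ∈ interior (closure U) := mem_interior.mpr ⟨Z, hZs, hZo, hxZ⟩
      rw [hreg] at this
      exact ((hfr p₀ g₀).mp hx).1 this
    -- inside
    obtain ⟨z₁, hz₁Z, hz₁U⟩ := hU1
    obtain ⟨g₁, ⟨hg₁W, hg₁U⟩, hg₁n⟩ := hdense (W ∩ pos p₀ ⁻¹' U)
      (hWo.inter (hU.preimage (pos_continuous p₀)))
      ⟨_, hZW z₁ hz₁Z, by rw [mem_preimage, hposz]; exact hz₁U⟩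
    obtain ⟨z₂, hz₂Z, hz₂U⟩ := hU2
    obtain ⟨g₂, ⟨hg₂W, hg₂U⟩, hg₂n⟩ := hdense (W ∩ pos p₀ ⁻¹' (closure U)ᶜ)
      (hWo.inter (isClosed_closure.isOpen_compl.preimage (pos_continuous p₀)))
      ⟨_, hZW z₂ hz₂Z, by rw [mem_preimage, hposz]; exact hz₂U⟩
    -- types near g₀
    have htype : ∀ g ∈ W, ∀ p, p ≠ p₀ → (p ∈ hits U g ↔ p ∈ hits U g₀) := by
      intro g hgW' p hpne
      constructor
      · intro hp
        by_contra hpn
        by_cases hcl : pos p g₀ ∈ closure U
        · have : p ∈ hits (frontier U) g₀ := (hfr p g₀).mpr ⟨hpn, hcl⟩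
          rw [hone] at this
          exact hpne this
        · exact (hWsub g hgW').2 p hcl (subset_closure hp)
      · intro hp
        exact (hWsub g hgW').1 p hp
    have h1 : hits U g₁ = insert p₀ (hits U g₀) := by
      ext p
      by_cases hp : p = p₀
      · subst hp
        simp only [mem_insert_iff, true_or, iff_true]
        exact hg₁U
      · rw [htype g₁ hg₁W p hp]
        simp [hp]
    have h2 : hits U g₂ = hits U g₀ := by
      ext p
      by_cases hp : p = p₀
      · subst hp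
        constructor
        · intro h
          have h' : pos p g₂ ∈ U := h
          exact absurd (subset_closure h') hg₂U
        · intro h; exact absurd h hp₀U
      · exact htype g₂ hg₂W p hp
    rw [h1, encard_insert_of_notMem hp₀U] at hg₁n
    rw [h2] at hg₂n
    rw [hg₂n] at hg₁n
    have : ((n + 1 : ℕ) : ℕ∞) = (n : ℕ∞) := by push_cast; exact hg₁n
    have := Nat.cast_injective this
    omega
  · -- at least two frontier points
    obtain ⟨p₁, hp₁, hp₁ne⟩ : ∃ p₁ ∈ hits (frontier U) g₀, p₁ ≠ p₀ := by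
      by_contra hcon
      push Not at hcon
      apply hone
      ext p
      constructor
      · intro hp; exact hcon p hp
      · intro hp
        rw [mem_singleton_iff] at hp
        rw [hp]; exact hp₀
    obtain ⟨W, hWsub, hWo, hgW⟩ := _root_.eventually_nhds_iff.mp heq
    set x := pos p₀ g₀ with hx
    set D := lat p₁ - lat p₀ with hD
    have hD0 : D ≠ 0 := by
      rw [hD, sub_ne_zero]
      intro h
      exact hp₁ne (lat_injective h)
    -- the two families of motions
    let ga : ℝ → ℝ × ℂ := fun α => (g₀.1 + α, x - exp ((g₀.1 + α : ℝ) * I) * lat p₀)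
    let gb : ℝ × ℝ → ℝ × ℂ := fun q => (g₀.1 + q.1 + q.2,
      x + exp ((g₀.1 + q.1 : ℝ) * I) * D - exp ((g₀.1 + q.1 + q.2 : ℝ) * I) * lat p₁)
    have hga : Continuous ga := by fun_prop
    have hgb : Continuous gb := by fun_prop
    have hga0 : ga 0 = g₀ := by
      apply Prod.ext
      · simp [ga]
      · simp [ga, hx, pos]
    have hgb0 : gb (0, 0) = g₀ := by
      apply Prod.ext
      · simp [gb]
      · simp only [gb, hx, pos, hD, add_zero]; ring
    have eα : ∀ᶠ α : ℝ in 𝓝 0, ga α ∈ W :=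
      hga.continuousAt.eventually_mem (by rw [hga0]; exact hWo.mem_nhds hgW)
    have eαβ : ∀ᶠ q : ℝ × ℝ in 𝓝 (0, 0), gb q ∈ W :=
      hgb.continuousAt.eventually_mem (by rw [hgb0]; exact hWo.mem_nhds hgW)
    obtain ⟨ε₁, hε₁, he₁⟩ := Metric.eventually_nhds_iff.mp eα
    obtain ⟨ε₂, hε₂, he₂⟩ := Metric.eventually_nhds_iff.mp eαβ
    obtain ⟨O, hO, hOne, hOs⟩ := sector_open (lt_min hε₁ hε₂)
    have hkey : ∀ w ∈ O, x + exp (g₀.1 * I) * D * w ∈ frontier U := by
      intro w hw
      obtain ⟨α, β, hα, hβ, hαβ⟩ := hOs w hw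
      have hα1 : ga α ∈ W := he₁ (by
        rw [Real.dist_eq, sub_zero]; exact lt_of_lt_of_le hα (min_le_left _ _))
      have hgb1 : gb (α, β) ∈ W := he₂ (by
        rw [Prod.dist_eq, Real.dist_eq, Real.dist_eq, sub_zero, sub_zero]
        exact max_lt (lt_of_lt_of_le hα (min_le_right _ _))
          (lt_of_lt_of_le hβ (min_le_right _ _)))
      have hposa : pos p₀ (ga α) = x := by simp only [pos, ga]; ring
      have hposa1 : pos p₁ (ga α) = x + exp ((g₀.1 + α : ℝ) * I) * D := by
        simp only [pos, ga, hD]; ring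
      have hposb1 : pos p₁ (gb (α, β)) = x + exp ((g₀.1 + α : ℝ) * I) * D := by
        simp only [pos, gb]; ring
      have hposb0 : pos p₀ (gb (α, β)) = x + exp (g₀.1 * I) * D * w := by
        rw [← hαβ]
        simp only [pos, gb]
        have e1 : exp (((g₀.1 + α : ℝ) : ℂ) * I) = exp (g₀.1 * I) * exp (α * I) := by
          rw [← Complex.exp_add]; congr 1; push_cast; ring
        have e2 : exp (((g₀.1 + α + β : ℝ) : ℂ) * I) =
            exp (g₀.1 * I) * exp (α * I) * exp (β * I) := by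
          rw [← Complex.exp_add, ← Complex.exp_add]; congr 1; push_cast; ring
        rw [e1, e2, hD]
        ring
      -- first rotation
      have hA : p₀ ∈ hits (frontier U) (ga α) := by
        change pos p₀ (ga α) ∈ frontier U
        rw [hposa]; exact hp₀
      have hA' := hWsub _ hα1 ⟨p₀, hA⟩
      have hA1 : p₁ ∈ hits (frontier U) (ga α) := by rw [hA']; exact hp₁
      have hB1 : p₁ ∈ hits (frontier U) (gb (α, β)) := by
        change pos p₁ (gb (α, β)) ∈ frontier U
        rw [hposb1, ← hposa1]; exact hA1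
      have hB' := hWsub _ hgb1 ⟨p₁, hB1⟩
      have hB0 : p₀ ∈ hits (frontier U) (gb (α, β)) := by rw [hB']; exact hp₀
      have hB0' : pos p₀ (gb (α, β)) ∈ frontier U := hB0
      rwa [hposb0] at hB0'
    -- the frontier contains an open set
    have hc0 : exp (g₀.1 * I) * D ≠ 0 := mul_ne_zero (Complex.exp_ne_zero _) hD0
    have hopen : IsOpen ((fun w => x + exp (g₀.1 * I) * D * w) '' O) := by
      have hhom : IsOpenMap (fun w : ℂ => x + exp (g₀.1 * I) * D * w) := by
        have := ((Homeomorph.mulLeft₀ _ hc0).trans (Homeomorph.addLeft x)).isOpenMap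
        exact this
      exact hhom O hO
    obtain ⟨w, hw⟩ := hOne
    have hint : (interior (frontier U)).Nonempty := by
      refine ⟨_, mem_interior.mpr ⟨_, ?_, hopen, ⟨w, hw, rfl⟩⟩⟩
      rintro _ ⟨w', hw', rfl⟩
      exact hkey w' hw'
    have hempty : interior (frontier U) = ∅ := by
      rw [← frontier_compl]
      exact interior_frontier hU.isClosed_compl
    rw [hempty] at hint
    exact not_nonempty_empty hint

end Pool.MPb9430d
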