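import Mathlib

/-!
Lattice points near large circles in every direction.
-/

open Complex

namespace Pool.MPb9430d

/-- The lattice point with integer coordinates `p`. -/
noncomputable def lat (p : ℤ × ℤ) : ℂ := (p.1 : ℂ) + (p.2 : ℂ) * I

theorem lat_re (p : ℤ × ℤ) : (lat p).re = p.1 := by simp [lat]

theorem lat_im (p : ℤ × ℤ) : (lat p).im = p.2 := by simp [lat]

theorem lat_add (p q : ℤ × ℤ) : lat (p + q) = lat p + lat q := by
  apply Complex.ext <;> simp [lat_re, lat_im]

theorem lat_smul (k : ℤ) (p : ℤ × ℤ) : lat (k • p) = k * lat p := by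
  apply Complex.ext <;> simp [lat_re, lat_im]

theorem lat_neg (p : ℤ × ℤ) : lat (-p) = -lat p := by
  apply Complex.ext <;> simp [lat_re, lat_im]

theorem lat_injective : Function.Injective lat := by
  intro p q h
  have h1 := congrArg Complex.re h
  have h2 := congrArg Complex.im h
  rw [lat_re, lat_re] at h1
  rw [lat_im, lat_im] at h2
  exact Prod.ext (by exact_mod_cast h1) (by exact_mod_cast h2)

/-- Lattice points of bounded norm are finitely many. -/
theorem finite_lat (M : ℝ) : {p : ℤ × ℤ | ‖lat p‖ ≤ M}.Finite := by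
  have hsub : {p : ℤ × ℤ | ‖lat p‖ ≤ M} ⊆ (Set.Icc (-⌈M⌉) ⌈M⌉) ×ˢ (Set.Icc (-⌈M⌉) ⌈M⌉) := by
    intro p hp
    have hp' : ‖lat p‖ ≤ M := hp
    have h1 : |(p.1 : ℝ)| ≤ M := by
      have := Complex.abs_re_le_norm (lat p)
      rw [lat_re] at this
      linarith
    have h2 : |(p.2 : ℝ)| ≤ M := by
      have := Complex.abs_im_le_norm (lat p)
      rw [lat_im] at this
      linarith
    rw [abs_le] at h1 h2
    have hc : M ≤ ⌈M⌉ := Int.le_ceil M
    refine ⟨⟨?_, ?_⟩, ⟨?_, ?_⟩⟩
    · have : (-(⌈M⌉ : ℤ) : ℝ) ≤ p.1 := by linarith [h1.1]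
      exact_mod_cast this
    · have : (p.1 : ℝ) ≤ ⌈M⌉ := by linarith [h1.2]
      exact_mod_cast this
    · have : (-(⌈M⌉ : ℤ) : ℝ) ≤ p.2 := by linarith [h2.1]
      exact_mod_cast this
    · have : (p.2 : ℝ) ≤ ⌈M⌉ := by linarith [h2.2]
      exact_mod_cast this
  exact ((Set.finite_Icc _ _).prod (Set.finite_Icc _ _)).subset hsub

/-- A lattice point within distance one of any point. -/
theorem exists_lat_near (z : ℂ) : ∃ p : ℤ × ℤ, ‖lat p - z‖ ≤ 1 := by
  refine ⟨(round z.re, round z.im), ?_⟩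
  have h1 : |((round z.re : ℤ) : ℝ) - z.re| ≤ 1 / 2 := by
    rw [abs_sub_comm]; exact abs_sub_round z.re
  have h2 : |((round z.im : ℤ) : ℝ) - z.im| ≤ 1 / 2 := by
    rw [abs_sub_comm]; exact abs_sub_round z.im
  have h3 := Complex.norm_le_abs_re_add_abs_im (lat (round z.re, round z.im) - z)
  rw [Complex.sub_re, Complex.sub_im, lat_re, lat_im] at h3
  linarith

/-- Real inner product. -/
noncomputable def ip (u v : ℂ) : ℝ := u.re * v.re + u.im * v.im

/-- Dirichlet: a short lattice vector nearly orthogonal to a given vector, on the right side. -/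
theorem exists_short (u : ℂ) (N : ℕ) (hN : 0 < N) :
    ∃ v : ℤ × ℤ, v ≠ 0 ∧ ‖lat v‖ ≤ 2 * (N + 1) ∧ 0 ≤ ip u (lat v) ∧
      ip u (lat v) ≤ ‖u‖ / (N + 1) := by
  -- it suffices to bound the absolute value
  have key : ∃ v : ℤ × ℤ, v ≠ 0 ∧ ‖lat v‖ ≤ 2 * (N + 1) ∧ |ip u (lat v)| ≤ ‖u‖ / (N + 1) := by
    have hre := Complex.abs_re_le_norm u
    have him := Complex.abs_im_le_norm u
    have hN1 : (0 : ℝ) < (N : ℝ) + 1 := by positivity
    rcases le_total |u.im| |u.re| with h | h
    · -- divide by the real part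
      by_cases hu : u.re = 0
      · have him0 : u.im = 0 := by
          rw [hu, abs_zero] at h
          exact abs_eq_zero.mp (le_antisymm h (abs_nonneg _))
        refine ⟨(1, 0), by simp, ?_, ?_⟩
        · have : lat (1, 0) = 1 := by simp [lat]
          rw [this, norm_one]
          have : (0 : ℝ) ≤ N := Nat.cast_nonneg N
          linarith
        · simp only [ip, hu, him0, zero_mul, add_zero, abs_zero]
          positivity
      · obtain ⟨j, k, hk0, hkN, hjk⟩ := Real.exists_int_int_abs_mul_sub_le (-(u.im / u.re)) hN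
        refine ⟨(j, k), ?_, ?_, ?_⟩
        · intro h0
          have := congrArg Prod.snd h0
          simp only [Prod.snd_zero] at this
          omega
        · have hk : |(k : ℝ)| ≤ N := by
            rw [abs_of_pos (by exact_mod_cast hk0)]
            exact_mod_cast hkN
          have hq : |u.im / u.re| ≤ 1 := by
            rw [abs_div, div_le_one (abs_pos.mpr hu)]; exact h
          have hj : |(j : ℝ)| ≤ N + 1 := by
            have h1 : (j : ℝ) = (k : ℝ) * (-(u.im / u.re)) - ((k : ℝ) * (-(u.im / u.re)) - j) := by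
              ring
            have h2 : |(k : ℝ) * (-(u.im / u.re))| ≤ N := by
              rw [abs_mul, abs_neg]
              calc |(k : ℝ)| * |u.im / u.re| ≤ N * 1 :=
                    mul_le_mul hk hq (abs_nonneg _) (Nat.cast_nonneg N)
                _ = N := mul_one _
            have h3 : (1 : ℝ) / (N + 1) ≤ 1 := by
              rw [div_le_one hN1]; linarith [(Nat.cast_nonneg N : (0 : ℝ) ≤ N)]
            rw [h1]
            calc _ ≤ |(k : ℝ) * (-(u.im / u.re))| + |(k : ℝ) * (-(u.im / u.re)) - j| := abs_sub _ _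
              _ ≤ N + 1 := by linarith
          have h3 := Complex.norm_le_abs_re_add_abs_im (lat (j, k))
          rw [lat_re, lat_im] at h3
          simp only at h3
          linarith
        · have h1 : ip u (lat (j, k)) = -(u.re * ((k : ℝ) * (-(u.im / u.re)) - j)) := by
            simp only [ip, lat_re, lat_im]
            field_simp
            ring
          rw [h1, abs_neg, abs_mul]
          calc |u.re| * |(k : ℝ) * (-(u.im / u.re)) - j| ≤ ‖u‖ * (1 / (N + 1)) :=
                mul_le_mul hre hjk (abs_nonneg _) (norm_nonneg _)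
            _ = ‖u‖ / (N + 1) := by ring
    · by_cases hu : u.im = 0
      · have hre0 : u.re = 0 := by
          rw [hu, abs_zero] at h
          exact abs_eq_zero.mp (le_antisymm h (abs_nonneg _))
        refine ⟨(1, 0), by simp, ?_, ?_⟩
        · have : lat (1, 0) = 1 := by simp [lat]
          rw [this, norm_one]
          have : (0 : ℝ) ≤ N := Nat.cast_nonneg N
          linarith
        · simp only [ip, hu, hre0, zero_mul, add_zero, abs_zero]
          positivity
      · obtain ⟨j, k, hk0, hkN, hjk⟩ := Real.exists_int_int_abs_mul_sub_le (-(u.re / u.im)) hN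
        refine ⟨(k, j), ?_, ?_, ?_⟩
        · intro h0
          have := congrArg Prod.fst h0
          simp only [Prod.fst_zero] at this
          omega
        · have hk : |(k : ℝ)| ≤ N := by
            rw [abs_of_pos (by exact_mod_cast hk0)]
            exact_mod_cast hkN
          have hq : |u.re / u.im| ≤ 1 := by
            rw [abs_div, div_le_one (abs_pos.mpr hu)]; exact h
          have hj : |(j : ℝ)| ≤ N + 1 := by
            have h1 : (j : ℝ) = (k : ℝ) * (-(u.re / u.im)) - ((k : ℝ) * (-(u.re / u.im)) - j) := by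
              ring
            have h2 : |(k : ℝ) * (-(u.re / u.im))| ≤ N := by
              rw [abs_mul, abs_neg]
              calc |(k : ℝ)| * |u.re / u.im| ≤ N * 1 :=
                    mul_le_mul hk hq (abs_nonneg _) (Nat.cast_nonneg N)
                _ = N := mul_one _
            have h3 : (1 : ℝ) / (N + 1) ≤ 1 := by
              rw [div_le_one hN1]; linarith [(Nat.cast_nonneg N : (0 : ℝ) ≤ N)]
            rw [h1]
            calc _ ≤ |(k : ℝ) * (-(u.re / u.im))| + |(k : ℝ) * (-(u.re / u.im)) - j| := abs_sub _ _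
              _ ≤ N + 1 := by linarith
          have h3 := Complex.norm_le_abs_re_add_abs_im (lat (k, j))
          rw [lat_re, lat_im] at h3
          simp only at h3
          linarith
        · have h1 : ip u (lat (k, j)) = -(u.im * ((k : ℝ) * (-(u.re / u.im)) - j)) := by
            simp only [ip, lat_re, lat_im]
            field_simp
            ring
          rw [h1, abs_neg, abs_mul]
          calc |u.im| * |(k : ℝ) * (-(u.re / u.im)) - j| ≤ ‖u‖ * (1 / (N + 1)) :=
                mul_le_mul him hjk (abs_nonneg _) (norm_nonneg _)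
            _ = ‖u‖ / (N + 1) := by ring
  obtain ⟨v, hv0, hv1, hv2⟩ := key
  rcases le_total 0 (ip u (lat v)) with h | h
  · exact ⟨v, hv0, hv1, h, by rwa [abs_of_nonneg h] at hv2⟩
  · have hneg : ip u (lat (-v)) = -ip u (lat v) := by
      rw [lat_neg]; simp only [ip, Complex.neg_re, Complex.neg_im]; ring
    refine ⟨-v, neg_ne_zero.mpr hv0, by rw [lat_neg, norm_neg]; exact hv1, ?_, ?_⟩
    · rw [hneg]; linarith
    · rw [hneg]; rwa [abs_of_nonpos h] at hv2

theorem norm_sq_add (u v : ℂ) (t : ℝ) :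
    ‖u + t * v‖ ^ 2 = ‖u‖ ^ 2 + 2 * t * ip u v + t ^ 2 * ‖v‖ ^ 2 := by
  rw [← Complex.normSq_eq_norm_sq, ← Complex.normSq_eq_norm_sq, ← Complex.normSq_eq_norm_sq]
  simp only [Complex.normSq_apply, Complex.add_re, Complex.add_im, Complex.mul_re, Complex.mul_im,
    Complex.ofReal_re, Complex.ofReal_im, zero_mul, sub_zero, add_zero, ip]
  ring

set_option maxHeartbeats 1000000 in
/-- Every point far away is close in direction, and very close in modulus, to a lattice point. -/
theorem exists_lat_annulus {ε : ℝ} (hε : 0 < ε) :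
    ∃ R₀ : ℝ, 0 < R₀ ∧ ∀ w : ℂ, R₀ ≤ ‖w‖ →
      ∃ p : ℤ × ℤ, |‖lat p‖ - ‖w‖| < ε ∧ ‖lat p - w‖ ≤ ε * ‖w‖ := by
  obtain ⟨N, hN⟩ := exists_nat_gt (8 / ε)
  have hNpos : 0 < N := by
    have : (0 : ℝ) < N := lt_trans (by positivity) hN
    exact_mod_cast this
  set V : ℝ := 2 * (N + 1) with hV
  have hV2 : 2 ≤ V := by
    have : (0 : ℝ) ≤ N := Nat.cast_nonneg N
    rw [hV]; linarith
  -- conditions on R
  have hlim : ∀ᶠ R : ℝ in Filter.atTop, 10 ≤ R ∧ 2 * √(6 * R) * V + V ^ 2 ≤ ε / 4 * (R - 3) ∧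
      3 + √(6 * R) + V ≤ ε * R := by
    have hsqrt : ∀ δ : ℝ, 0 < δ → ∀ R : ℝ, 0 ≤ R → √(6 * R) ≤ δ * R + 3 / (2 * δ) := by
      intro δ hδ R hR
      rw [Real.sqrt_le_left (by positivity)]
      have h1 : (δ * R + 3 / (2 * δ)) ^ 2 = (δ * R - 3 / (2 * δ)) ^ 2 + 6 * R := by
        field_simp
        ring
      rw [h1]
      nlinarith [sq_nonneg (δ * R - 3 / (2 * δ))]
    set δ : ℝ := min (ε / (16 * V)) (ε / 2) with hδ
    have hδ0 : 0 < δ := lt_min (by positivity) (by positivity)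
    have hδ1 : 2 * V * δ ≤ ε / 8 := by
      have : δ ≤ ε / (16 * V) := min_le_left _ _
      calc 2 * V * δ ≤ 2 * V * (ε / (16 * V)) := by gcongr
        _ = ε / 8 := by field_simp; ring
    have hδ2 : δ ≤ ε / 2 := min_le_right _ _
    filter_upwards [Filter.eventually_ge_atTop (10 : ℝ),
      Filter.eventually_ge_atTop (8 / ε * (2 * V * (3 / (2 * δ)) + V ^ 2 + 3 * ε / 4)),
      Filter.eventually_ge_atTop (2 / ε * (3 + 3 / (2 * δ) + V))] with R h10 h1 h2
    have hs := hsqrt δ hδ0 R (by linarith)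
    refine ⟨h10, ?_, ?_⟩
    · have h3 : 2 * V * (3 / (2 * δ)) + V ^ 2 + 3 * ε / 4 ≤ ε / 8 * R := by
        have := mul_le_mul_of_nonneg_left h1 (show (0 : ℝ) ≤ ε / 8 by positivity)
        calc _ = ε / 8 * (8 / ε * (2 * V * (3 / (2 * δ)) + V ^ 2 + 3 * ε / 4)) := by
              field_simp
          _ ≤ _ := this
      have h4 : 2 * √(6 * R) * V ≤ 2 * V * (δ * R + 3 / (2 * δ)) := by
        have := mul_le_mul_of_nonneg_left hs (show (0 : ℝ) ≤ 2 * V by linarith)
        linarith
      have h5 : 2 * V * (δ * R) ≤ ε / 8 * R := by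
        have := mul_le_mul_of_nonneg_right hδ1 (show (0 : ℝ) ≤ R by linarith)
        linarith
      nlinarith
    · have h3 : 3 + 3 / (2 * δ) + V ≤ ε / 2 * R := by
        have := mul_le_mul_of_nonneg_left h2 (show (0 : ℝ) ≤ ε / 2 by positivity)
        calc _ = ε / 2 * (2 / ε * (3 + 3 / (2 * δ) + V)) := by field_simp
          _ ≤ _ := this
      have h5 : δ * R ≤ ε / 2 * R := mul_le_mul_of_nonneg_right hδ2 (by linarith)
      linarith
  obtain ⟨R₀, hR₀⟩ := Filter.eventually_atTop.mp hlim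
  refine ⟨max R₀ 1, lt_of_lt_of_le one_pos (le_max_right _ _), fun w hw => ?_⟩
  set R := ‖w‖ with hR
  obtain ⟨h10, hA, hB⟩ := hR₀ R (le_trans (le_max_left _ _) hw)
  have hRpos : 0 < R := by linarith
  -- the base point
  obtain ⟨p₁, hp₁⟩ := exists_lat_near (((R - 2) / R : ℝ) * w)
  have hnw : ‖(((R - 2) / R : ℝ) : ℂ) * w‖ = R - 2 := by
    rw [norm_mul, Complex.norm_real, Real.norm_eq_abs, abs_of_nonneg (div_nonneg (by linarith) hRpos.le),
      ← hR]
    field_simp
  have hdiff : ‖(((R - 2) / R : ℝ) : ℂ) * w - w‖ = 2 := by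
    have h1 : (((R - 2) / R : ℝ) : ℂ) * w - w = ((-2 / R : ℝ) : ℂ) * w := by
      have h2 : (((R - 2) / R : ℝ) : ℂ) - 1 = ((-2 / R : ℝ) : ℂ) := by
        have h3 : (R - 2) / R - 1 = -2 / R := by field_simp; ring
        rw [← h3]; push_cast; ring
      calc (((R - 2) / R : ℝ) : ℂ) * w - w = ((((R - 2) / R : ℝ) : ℂ) - 1) * w := by ring
        _ = _ := by rw [h2]
    rw [h1, norm_mul, Complex.norm_real, Real.norm_eq_abs, ← hR, abs_div, abs_neg, abs_two,
      abs_of_pos hRpos]
    field_simp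
  set u := lat p₁ with hu
  set w' := (((R - 2) / R : ℝ) : ℂ) * w with hw'
  have hu1 : ‖u‖ ≤ R - 1 := by
    have : ‖u‖ ≤ ‖w'‖ + ‖u - w'‖ := by
      have h := norm_add_le w' (u - w')
      rwa [add_sub_cancel] at h
    linarith
  have hu2 : R - 3 ≤ ‖u‖ := by
    have : ‖w'‖ ≤ ‖u‖ + ‖u - w'‖ := by
      have h := norm_sub_le u (u - w')
      rwa [sub_sub_cancel] at h
    linarith
  have hu3 : ‖u - w‖ ≤ 3 := by
    have h := norm_add_le (u - w') (w' - w)
    rw [sub_add_sub_cancel] at h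
    linarith
  obtain ⟨v, hv0, hvV, hip0, hip1⟩ := exists_short u N hNpos
  have hv1 : 1 ≤ ‖lat v‖ := by
    have h : v.1 ≠ 0 ∨ v.2 ≠ 0 := by
      by_contra hcon
      push Not at hcon
      exact hv0 (Prod.ext hcon.1 hcon.2)
    rcases h with h | h
    · have h1 := Complex.abs_re_le_norm (lat v)
      rw [lat_re] at h1
      have h2 : (1 : ℝ) ≤ |(v.1 : ℝ)| := by
        rw [← Int.cast_abs]; exact_mod_cast Int.one_le_abs h
      linarith
    · have h1 := Complex.abs_im_le_norm (lat v)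
      rw [lat_im] at h1
      have h2 : (1 : ℝ) ≤ |(v.2 : ℝ)| := by
        rw [← Int.cast_abs]; exact_mod_cast Int.one_le_abs h
      linarith
  set ν := ‖lat v‖ with hν
  set c := ip u (lat v) with hc
  let f : ℕ → ℝ := fun k => ‖u + ((k : ℝ) : ℂ) * lat v‖
  have hfsq : ∀ k : ℕ, f k ^ 2 = ‖u‖ ^ 2 + 2 * k * c + (k : ℝ) ^ 2 * ν ^ 2 := fun k =>
    norm_sq_add u (lat v) k
  have hf0 : ∀ k, 0 ≤ f k := fun k => norm_nonneg _
  have hfu : ∀ k, ‖u‖ ≤ f k := by
    intro k
    have h1 : ‖u‖ ^ 2 ≤ f k ^ 2 := by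
      rw [hfsq]
      have : (0 : ℝ) ≤ 2 * k * c := by positivity
      have : (0 : ℝ) ≤ (k : ℝ) ^ 2 * ν ^ 2 := by positivity
      linarith
    exact (sq_le_sq₀ (norm_nonneg _) (hf0 k)).mp h1
  have hex : ∃ k, R ≤ f k := by
    obtain ⟨k, hk⟩ := exists_nat_ge R
    refine ⟨k, ?_⟩
    have h1 : R ^ 2 ≤ f k ^ 2 := by
      rw [hfsq]
      have h2 : (0 : ℝ) ≤ 2 * k * c := by positivity
      have h3 : R ^ 2 ≤ (k : ℝ) ^ 2 * ν ^ 2 := by
        rw [← mul_pow]
        have : R ≤ k * ν := by nlinarith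
        exact pow_le_pow_left₀ hRpos.le this 2
      nlinarith [sq_nonneg ‖u‖]
    exact (sq_le_sq₀ hRpos.le (hf0 k)).mp h1
  classical
  have hfind := Nat.find_spec hex
  set k := Nat.find hex with hk
  have hk0 : k ≠ 0 := by
    intro h0
    rw [h0] at hfind
    have : f 0 = ‖u‖ := by simp [f]
    rw [this] at hfind
    linarith
  obtain ⟨j, hj⟩ := Nat.exists_eq_succ_of_ne_zero hk0
  have hfj : f j < R := by
    have := Nat.find_min hex (m := j) (by rw [← hk, hj]; exact Nat.lt_succ_self j)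
    exact not_le.mp this
  rw [hj] at hfind
  have hjν : (j : ℝ) * ν ≤ √(6 * R) := by
    apply Real.le_sqrt_of_sq_le
    have h1 : f j ^ 2 < R ^ 2 := pow_lt_pow_left₀ hfj (hf0 j) two_ne_zero
    rw [hfsq] at h1
    have h2 : (0 : ℝ) ≤ 2 * j * c := by positivity
    nlinarith [mul_pow (j : ℝ) ν 2]
  have hstep : f (j + 1) ^ 2 - f j ^ 2 = 2 * c + (2 * j + 1) * ν ^ 2 := by
    rw [hfsq, hfsq]; push_cast; ring
  have hupos : 0 < ‖u‖ := by linarith
  have hle : f j ≤ f (j + 1) := by linarith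
  have hc2 : 2 * c ≤ ε / 4 * ‖u‖ := by
    have h1 : ‖u‖ / (N + 1) ≤ ε / 8 * ‖u‖ := by
      rw [div_le_iff₀ (by positivity)]
      have h2 : 8 ≤ ε * N := by
        rw [div_lt_iff₀ hε] at hN
        linarith
      nlinarith
    linarith
  have hν2 : (2 * (j : ℝ) + 1) * ν ^ 2 ≤ ε / 4 * ‖u‖ := by
    have h1 : (2 * (j : ℝ) + 1) * ν ^ 2 = 2 * (j * ν) * ν + ν ^ 2 := by ring
    have h2 : 2 * ((j : ℝ) * ν) * ν ≤ 2 * √(6 * R) * V := by
      have h3 : (0 : ℝ) ≤ √(6 * R) := Real.sqrt_nonneg _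
      have h4 : (0 : ℝ) ≤ (j : ℝ) * ν := by positivity
      have : ((j : ℝ) * ν) * ν ≤ √(6 * R) * V :=
        mul_le_mul hjν hvV (by positivity) h3
      linarith
    have h3 : ν ^ 2 ≤ V ^ 2 := pow_le_pow_left₀ (by positivity) hvV 2
    have h4 : ε / 4 * (R - 3) ≤ ε / 4 * ‖u‖ := by
      apply mul_le_mul_of_nonneg_left hu2 (by positivity)
    linarith
  have hinc : f (j + 1) - f j ≤ ε / 4 := by
    have h1 : (f (j + 1) - f j) * (2 * ‖u‖) ≤ ε / 4 * (2 * ‖u‖) := by
      have h2 : (f (j + 1) - f j) * (2 * ‖u‖) ≤ (f (j + 1) - f j) * (f (j + 1) + f j) := by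
        apply mul_le_mul_of_nonneg_left _ (by linarith)
        linarith [hfu j, hfu (j + 1)]
      have h3 : (f (j + 1) - f j) * (f (j + 1) + f j) = f (j + 1) ^ 2 - f j ^ 2 := by ring
      rw [h3, hstep] at h2
      linarith
    exact le_of_mul_le_mul_right h1 (by positivity)
  have hlat : lat (p₁ + ((j + 1 : ℕ) : ℤ) • v) = u + (((j + 1 : ℕ) : ℝ) : ℂ) * lat v := by
    rw [lat_add, lat_smul]; push_cast; ring
  refine ⟨p₁ + ((j + 1 : ℕ) : ℤ) • v, ?_, ?_⟩
  · rw [hlat]
    change |f (j + 1) - R| < ε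
    rw [abs_of_nonneg (by linarith)]
    linarith
  · rw [hlat]
    have h1 : u + (((j + 1 : ℕ) : ℝ) : ℂ) * lat v - w = (u - w) + (((j + 1 : ℕ) : ℝ) : ℂ) * lat v := by
      ring
    rw [h1]
    have h2 : ‖(((j + 1 : ℕ) : ℝ) : ℂ) * lat v‖ = (j + 1) * ν := by
      rw [norm_mul, Complex.norm_real, Real.norm_eq_abs, abs_of_nonneg (by positivity)]
      push_cast; ring
    calc _ ≤ ‖u - w‖ + ‖(((j + 1 : ℕ) : ℝ) : ℂ) * lat v‖ := norm_add_le _ _
      _ ≤ 3 + (√(6 * R) + V) := by
          have h4 : ((j : ℝ) + 1) * ν = j * ν + ν := by ring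
          rw [h2, h4]
          linarith
      _ ≤ ε * R := by linarith

end Pool.MPb9430d
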