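import Pool.Agent.Lib.MP_b9430d_co.Bounded

/-!
No set with the Baire property meets every congruent copy of the integer lattice in exactly `n ≥ 1`
points.
-/

open Complex Set Filter Topology Metric

namespace Pool.MPb9430d

/-- If generic congruent copies of the lattice have exactly `n` points in the open set `U`, then `U`
is bounded. -/
theorem bounded_of_generic {U : Set ℂ} (hU : IsOpen U) {n : ℕ}
    (hgen : ∀ᶠ g in residual (ℝ × ℂ), (hits U g).encard = n) : Bornology.IsBounded U := by
  classical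
  have hdense : ∀ W : Set (ℝ × ℂ), IsOpen W → W.Nonempty →
      ∃ g ∈ W, (hits U g).encard = n := by
    intro W hW hWne
    have hd : Dense {g : ℝ × ℂ | (hits U g).encard = n} := dense_of_mem_residual hgen
    obtain ⟨g, hg1, hg2⟩ := hd.exists_mem_open hW hWne
    exact ⟨g, hg2, hg1⟩
  have hWopen : ∀ F : Set (ℤ × ℤ), F.Finite → IsOpen (⋂ p ∈ F, pos p ⁻¹' U) := fun F hF =>
    hF.isOpen_biInter (fun p _ => hU.preimage (pos_continuous p))
  have hle : ∀ g, (hits U g).encard ≤ n := by
    intro g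
    by_contra hcon
    push Not at hcon
    obtain ⟨F, hF, hFc⟩ := Set.exists_subset_encard_eq (Order.add_one_le_of_lt hcon)
    have hFfin : F.Finite := by
      rw [← Set.encard_lt_top_iff, hFc]
      exact (ENat.natCast_lt_top (n + 1))
    obtain ⟨g', hg', hg'n⟩ := hdense _ (hWopen F hFfin) ⟨g, by
      simp only [mem_iInter]; exact fun p hp => hF hp⟩
    have hsub : F ⊆ hits U g' := by
      intro p hp
      simp only [mem_iInter] at hg'
      exact hg' p hp
    have h1 := Set.encard_le_encard hsub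
    rw [hFc, hg'n] at h1
    have h2 : n + 1 ≤ n := by exact_mod_cast h1
    omega
  obtain ⟨g₀, -, hg₀⟩ := hdense univ isOpen_univ univ_nonempty
  have hfin : (hits U g₀).Finite := by
    rw [← Set.encard_lt_top_iff, hg₀]
    exact ENat.natCast_lt_top n
  have hW₀ := hWopen _ hfin
  have hg₀W : g₀ ∈ ⋂ p ∈ hits U g₀, pos p ⁻¹' U := by
    simp only [mem_iInter]; exact fun p hp => hp
  obtain ⟨ε, hε, hball⟩ := Metric.isOpen_iff.mp hW₀ g₀ hg₀W
  -- the argument near one
  have harg : ∀ᶠ ζ : ℂ in 𝓝 1, |arg ζ| < ε := by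
    have hc : ContinuousAt (fun ζ : ℂ => |arg ζ|) 1 :=
      (Complex.continuousAt_arg (by simp [Complex.one_mem_slitPlane])).abs
    exact hc.eventually_lt continuousAt_const (by simp [hε])
  obtain ⟨η, hη, hargη⟩ := Metric.eventually_nhds_iff.mp harg
  set ε' := min (min ε 1) (η / 4) with hε'
  have hε'0 : 0 < ε' := lt_min (lt_min hε one_pos) (by positivity)
  have hε'1 : ε' ≤ ε := (min_le_left _ _).trans (min_le_left _ _)
  have hε'2 : ε' ≤ 1 := (min_le_left _ _).trans (min_le_right _ _)
  have hε'3 : ε' ≤ η / 4 := min_le_right _ _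
  obtain ⟨R₀, hR₀, hlat⟩ := exists_lat_annulus hε'0
  -- a bound for the relevant lattice points
  obtain ⟨M₀, hM₀⟩ : ∃ M₀ : ℝ, ∀ p ∈ hits U g₀, ‖lat p‖ ≤ M₀ := by
    obtain ⟨M, hM⟩ := (hfin.image (fun p => ‖lat p‖)).bddAbove
    exact ⟨M, fun p hp => hM ⟨p, hp, rfl⟩⟩
  by_contra hunb
  -- a far point of U
  obtain ⟨z, hzU, hz⟩ : ∃ z ∈ U, R₀ + ‖g₀.2‖ + |M₀| + 2 < ‖z‖ := by
    by_contra hcon
    push Not at hcon
    apply hunb
    refine (isBounded_closedBall (x := (0 : ℂ)) (r := R₀ + ‖g₀.2‖ + |M₀| + 2)).subset ?_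
    intro z hz
    rw [mem_closedBall_zero_iff]
    exact hcon z hz
  set w : ℂ := exp (-(g₀.1 : ℂ) * I) * (z - g₀.2) with hw
  have hwn : ‖w‖ = ‖z - g₀.2‖ := by
    have h1 := norm_exp_mul (-g₀.1) (z - g₀.2)
    rw [hw]
    rw [← h1]; push_cast; rfl
  have hexpw : exp (g₀.1 * I) * w = z - g₀.2 := by
    rw [hw, ← mul_assoc, ← Complex.exp_add]
    have : (g₀.1 : ℂ) * I + -(g₀.1 : ℂ) * I = 0 := by ring
    rw [this, Complex.exp_zero, one_mul]
  have hwR : R₀ + |M₀| + 2 < ‖w‖ := by
    rw [hwn]
    have := norm_sub_norm_le z g₀.2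
    linarith
  clear_value w
  have hM₀n := abs_nonneg M₀
  obtain ⟨p, hp1, hp2⟩ := hlat w (by linarith)
  set c := ‖lat p‖ with hc
  set W := ‖w‖ with hW
  have hW1 : 1 ≤ W := by linarith
  rw [abs_lt] at hp1
  have hc0 : 0 < c := by linarith [hp1.1]
  have hlp0 : lat p ≠ 0 := by
    intro h
    rw [hc, h, norm_zero] at hc0
    exact lt_irrefl _ hc0
  have hW0 : (W : ℂ) ≠ 0 := by
    have : (0 : ℝ) < W := by linarith
    exact_mod_cast this.ne'
  have hcC : (c : ℂ) ≠ 0 := by exact_mod_cast hc0.ne'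
  set ζ : ℂ := w * c / (W * lat p) with hζ
  have hζn : ‖ζ‖ = 1 := by
    rw [hζ, norm_div, norm_mul, norm_mul, Complex.norm_real, Complex.norm_real, Real.norm_eq_abs,
      Real.norm_eq_abs, abs_of_pos hc0, abs_of_pos (by linarith : (0 : ℝ) < W), ← hc, ← hW]
    have : (0 : ℝ) < W := by linarith
    field_simp
  have hζ1 : ‖ζ - 1‖ < η := by
    have h1 : ζ - 1 = (c / lat p) * ((w - lat p) / W + lat p * (1 / W - 1 / c)) := by
      rw [hζ]; field_simp; ring
    have h2 : ‖(c : ℂ) / lat p‖ = 1 := by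
      rw [norm_div, Complex.norm_real, Real.norm_eq_abs, abs_of_pos hc0, ← hc]
      exact div_self hc0.ne'
    have hWpos : (0 : ℝ) < W := by linarith
    have h3 : ‖(w - lat p) / (W : ℂ)‖ ≤ ε' := by
      rw [norm_div, Complex.norm_real, Real.norm_eq_abs, abs_of_pos hWpos, div_le_iff₀ hWpos,
        norm_sub_rev]
      exact hp2
    have h4 : ‖lat p * (1 / (W : ℂ) - 1 / (c : ℂ))‖ ≤ ε' := by
      have h5 : (1 / (W : ℂ) - 1 / (c : ℂ)) = (((c - W) / (W * c) : ℝ) : ℂ) := by
        push_cast; field_simp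
      rw [norm_mul, h5, Complex.norm_real, Real.norm_eq_abs, ← hc, abs_div,
        abs_of_pos (mul_pos hWpos hc0)]
      have h6 : |c - W| ≤ ε' := by rw [abs_le]; exact ⟨hp1.1.le, hp1.2.le⟩
      have h7 : c * (|c - W| / (W * c)) = |c - W| / W := by field_simp
      rw [h7, div_le_iff₀ hWpos]
      nlinarith
    rw [h1, norm_mul, h2, one_mul]
    calc _ ≤ ‖(w - lat p) / (W : ℂ)‖ + ‖lat p * (1 / (W : ℂ) - 1 / (c : ℂ))‖ := norm_add_le _ _
      _ ≤ ε' + ε' := add_le_add h3 h4
      _ < η := by linarith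
  set α := arg ζ with hα
  have hαε : |α| < ε := hargη (by rw [dist_eq_norm]; exact hζ1)
  have hexpα : exp (α * I) = ζ := by
    have := Complex.norm_mul_exp_arg_mul_I ζ
    rwa [hζn, Complex.ofReal_one, one_mul] at this
  have hrot : exp (α * I) * lat p = (c / W : ℂ) * w := by
    rw [hexpα, hζ]; field_simp
  -- the new motion
  set g : ℝ × ℂ := (g₀.1 + α, z - exp ((g₀.1 + α : ℝ) * I) * lat p) with hg
  have hposg : pos p g = z := by simp only [pos, hg]; ring
  have hg2 : g.2 - g₀.2 = exp (g₀.1 * I) * (w - (c / W : ℂ) * w) := by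
    have e1 : exp (((g₀.1 + α : ℝ) : ℂ) * I) * lat p = exp (g₀.1 * I) * ((c / W : ℂ) * w) := by
      rw [← hrot, ← mul_assoc, ← Complex.exp_add]
      congr 2; push_cast; ring
    have e2 : exp (g₀.1 * I) * (w - (c / W : ℂ) * w) =
        exp (g₀.1 * I) * w - exp (g₀.1 * I) * ((c / W : ℂ) * w) := by ring
    rw [e2, hexpw, ← e1]
    simp only [hg]; ring
  have hWpos : (0 : ℝ) < W := by linarith
  have hg2n : ‖g.2 - g₀.2‖ < ε := by
    rw [hg2, norm_exp_mul]
    have e3 : w - (c / W : ℂ) * w = ((((W - c) / W : ℝ)) : ℂ) * w := by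
      push_cast; field_simp
    rw [e3, norm_mul, Complex.norm_real, Real.norm_eq_abs, abs_div, abs_of_pos hWpos, ← hW]
    have e4 : |W - c| / W * W = |W - c| := by field_simp
    rw [e4, abs_lt]
    constructor <;> linarith [hp1.1, hp1.2]
  have hgball : g ∈ ball g₀ ε := by
    rw [mem_ball, Prod.dist_eq]
    refine max_lt ?_ ?_
    · rw [Real.dist_eq]
      have : g.1 - g₀.1 = α := by simp [hg]
      rw [this]; exact hαε
    · rw [dist_eq_norm]; exact hg2n
  have hgW := hball hgball
  simp only [mem_iInter] at hgW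
  have hsub : insert p (hits U g₀) ⊆ hits U g := by
    intro q hq
    rcases mem_insert_iff.mp hq with rfl | hq
    · change pos q g ∈ U
      rw [hposg]; exact hzU
    · exact hgW q hq
  have hpn : p ∉ hits U g₀ := by
    intro h
    have h1 := hM₀ p h
    have h2 : M₀ ≤ |M₀| := le_abs_self _
    linarith [hp1.1]
  have h1 := Set.encard_le_encard hsub
  rw [encard_insert_of_notMem hpn, hg₀] at h1
  have h2 : n + 1 ≤ n := by exact_mod_cast h1.trans (hle g)
  omega

/-- The generic statement: for a set with the Baire property, the congruent copies of the lattice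
with exactly `n ≥ 1` points in the set are not generic. -/
theorem not_generic {E : Set ℂ} (hE : BaireMeasurableSet E) {n : ℕ} (hn : 1 ≤ n) :
    ¬ ∀ᶠ g in residual (ℝ × ℂ), (hits E g).encard = n := by
  intro hgenE
  obtain ⟨V, hV, hEV⟩ := hE.residualEq_isOpen
  set U := interior (closure V) with hUdef
  have hU : IsOpen U := isOpen_interior
  have hVU : V ⊆ U := interior_maximal subset_closure hV
  have hcl : closure U = closure V :=
    Subset.antisymm (closure_minimal interior_subset isClosed_closure) (closure_mono hVU)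
  have hreg : interior (closure U) = U := by rw [hcl]
  have hVUres : ∀ᶠ z in residual ℂ, (z ∈ V ↔ z ∈ U) := by
    have h1 : (frontier V)ᶜ ∈ residual ℂ := by
      refine residual_of_dense_open isClosed_frontier.isOpen_compl ?_
      rw [← interior_eq_empty_iff_dense_compl]
      rw [← frontier_compl]
      exact interior_frontier hV.isClosed_compl
    filter_upwards [h1] with z hz
    constructor
    · exact fun h => hVU h
    · intro h
      by_contra hzV
      apply hz
      rw [hV.frontier_eq]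
      exact ⟨interior_subset h, hzV⟩
  have hEU : ∀ᶠ z in residual ℂ, (z ∈ E ↔ z ∈ U) := by
    filter_upwards [hEV, hVUres] with z h1 h2
    rw [← h2]
    exact Iff.of_eq h1
  have hhits : ∀ᶠ g in residual (ℝ × ℂ), ∀ p : ℤ × ℤ, (pos p g ∈ E ↔ pos p g ∈ U) := by
    rw [eventually_countable_forall]
    intro p
    exact (tendsto_residual_of_isOpenMap (pos_continuous p) (pos_openMap p)).eventually hEU
  have hgen : ∀ᶠ g in residual (ℝ × ℂ), (hits U g).encard = n := by
    filter_upwards [hgenE, hhits] with g h1 h2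
    have : hits U g = hits E g := by
      ext p; exact (h2 p).symm
    rw [this, h1]
  have hne : U.Nonempty := by
    have hd : Dense {g : ℝ × ℂ | (hits U g).encard = n} := dense_of_mem_residual hgen
    obtain ⟨g, hg⟩ := hd.nonempty
    have hg' : (hits U g).encard = n := hg
    have : (hits U g).Nonempty := by
      rw [← Set.encard_pos, hg']
      exact_mod_cast hn
    obtain ⟨p, hp⟩ := this
    exact ⟨_, hp⟩
  exact no_bounded hU hreg (bounded_of_generic hU hgen) hne hgen

end Pool.MPb9430d
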